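import Pool.Agent.Work.MP_dd0ddf_al.FN.Defs
import Pool.Agent.Work.MP_dd0ddf_al.AR.FDiag
import Pool.Agent.Work.MP_dd0ddf_al.AR.FTra

/-!
# MP_dd0ddf_al: the archimedean half of the final statement
-/

set_option linter.unusedSectionVars false

namespace Pool.Agent.Work.MP_dd0ddf_al.FN

open Matrix Filter Topology
open Pool.Agent.Work.MP_dd0ddf_al
open scoped Matrix.Norms.Elementwise

noncomputable section

variable {n : ℕ}

/-! ## the isometry groups -/

private theorem isDiag_iff {J : Matrix (Fin n) (Fin n) ℂ} {ε : Fin n → ℝ} {A : GL (Fin n) ℂ} :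
    IsDiag J ε A ↔ AR.IsDiag J ε A :=
  ⟨fun h => ⟨h.sign, h.isometry⟩, fun h => ⟨h.sign, h.isom⟩⟩

/-- there is an isometry to a standard form -/
theorem exists_isDiag (n : ℕ) (J : Matrix (Fin n) (Fin n) ℂ) (hJ : Jᴴ = -J) (hdet : J.det ≠ 0) :
    ∃ (ε : Fin n → ℝ) (A : GL (Fin n) ℂ), IsDiag J ε A := by
  obtain ⟨ε, A, h⟩ := AR.exists_diag J hJ hdet
  exact ⟨ε, A, isDiag_iff.2 h⟩

private theorem form_one (v w : Fin n → ℂ) :
    AR.skf (fun _ => (1 : ℝ)) v w = Complex.I * form (1 : Matrix (Fin n) (Fin n) ℂ) v w := by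
  unfold AR.skf form
  congr 1
  refine Finset.sum_congr rfl fun i _ => ?_
  rw [Finset.sum_eq_single i]
  · rw [Matrix.one_apply_eq]
    push_cast
    rw [one_mul, mul_one]
    rfl
  · intro j _ hj
    rw [Matrix.one_apply_ne (Ne.symm hj)]
    ring
  · intro h
    exact absurd (Finset.mem_univ i) h

private theorem mem_KU (k : GL (Fin n) ℂ) :
    k ∈ UV (1 : Matrix (Fin n) (Fin n) ℂ) ↔ k ∈ AR.KU n := by
  constructor
  · intro h v w
    rw [form_one, form_one, h v w]
  · intro h v w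
    have h1 := h v w
    rw [form_one, form_one] at h1
    exact mul_left_cancel₀ Complex.I_ne_zero h1

/-! ## Casselman-Wallach representations -/

private theorem norm_le (g : GL (Fin n) ℂ) :
    ∑ i, ∑ j, (‖g.1 i j‖ + ‖g⁻¹.1 i j‖) ≤
      (n : ℝ) ^ 2 * (‖(g : AR.Mat n)‖ + ‖((g⁻¹ : GL (Fin n) ℂ) : AR.Mat n)‖) := by
  have h1 : ∀ i j, ‖g.1 i j‖ + ‖g⁻¹.1 i j‖ ≤
      ‖(g : AR.Mat n)‖ + ‖((g⁻¹ : GL (Fin n) ℂ) : AR.Mat n)‖ := fun i j =>
    add_le_add (Matrix.norm_entry_le_entrywise_sup_norm _) (Matrix.norm_entry_le_entrywise_sup_norm _)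
  refine (Finset.sum_le_sum fun i _ => Finset.sum_le_sum fun j _ => h1 i j).trans ?_
  simp only [Finset.sum_const, Finset.card_univ, Fintype.card_fin, nsmul_eq_mul]
  apply le_of_eq
  ring

private theorem isCW {P : Type*} [AddCommGroup P] [Module ℂ P] [TopologicalSpace P]
    {π : GL (Fin n) ℂ →* (P →L[ℂ] P)} (h : IsCW π) : AR.IsCW π where
  cont := h.continuous
  smooth v := by
    obtain ⟨D, hD⟩ := h.smooth v
    exact ⟨D, fun Y => hD Y (fun τ => AR.expG (τ • Y)) fun τ => AR.coe_expG (τ • Y)⟩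
  growth p hp := by
    obtain ⟨N, q, hq, h1⟩ := h.growth p hp
    let c : NNReal := ((n : NNReal) ^ 2) ^ N
    refine ⟨N, c • q, ?_, fun g v => ?_⟩
    · have h2 : ((c • q : Seminorm ℂ P) : P → ℝ) = fun v => (c : ℝ) * q v := rfl
      rw [h2]
      exact continuous_const.mul hq
    · refine (h1 g v).trans ?_
      have h2 : (∑ i, ∑ j, (‖g.1 i j‖ + ‖g⁻¹.1 i j‖)) ^ N ≤
          ((n : ℝ) ^ 2 * (‖(g : AR.Mat n)‖ + ‖((g⁻¹ : GL (Fin n) ℂ) : AR.Mat n)‖)) ^ N := by
        refine pow_le_pow_left₀ ?_ (norm_le g) N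
        exact Finset.sum_nonneg fun i _ => Finset.sum_nonneg fun j _ => by positivity
      refine (mul_le_mul_of_nonneg_right h2 (apply_nonneg q v)).trans (le_of_eq ?_)
      rw [mul_pow]
      have h3 : (c • q : Seminorm ℂ P) v = ((n : ℝ) ^ 2) ^ N * q v := by
        show (c : ℝ) * q v = _
        congr 1
      rw [h3]
      ring
  adm m σ hσ hirr := by
    let k' : (k : GL (Fin n) ℂ) → k ∈ UV (1 : Matrix (Fin n) (Fin n) ℂ) → AR.KU n :=
      fun k hk => ⟨k, (mem_KU k).1 hk⟩
    classical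
    let σ' : GL (Fin n) ℂ → Module.End ℂ (Fin m → ℂ) := fun k =>
      if hk : k ∈ UV (1 : Matrix (Fin n) (Fin n) ℂ) then Matrix.mulVecLin (σ (k' k hk)) else 1
    have h1 : ∀ (k : GL (Fin n) ℂ) (hk : k ∈ UV (1 : Matrix (Fin n) (Fin n) ℂ)) (x : Fin m → ℂ),
        σ' k x = σ (k' k hk) *ᵥ x := by
      intro k hk x
      show (if hk : k ∈ UV (1 : Matrix (Fin n) (Fin n) ℂ) then
        Matrix.mulVecLin (σ (k' k hk)) else 1) x = _
      rw [dif_pos hk]
      rfl
    have hone : (1 : GL (Fin n) ℂ) ∈ UV (1 : Matrix (Fin n) (Fin n) ℂ) :=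
      (mem_KU 1).2 (one_mem (AR.KU n))
    have hmul : ∀ k ∈ UV (1 : Matrix (Fin n) (Fin n) ℂ), ∀ l ∈ UV (1 : Matrix (Fin n) (Fin n) ℂ),
        k * l ∈ UV (1 : Matrix (Fin n) (Fin n) ℂ) := fun k hk l hl =>
      (mem_KU _).2 (mul_mem ((mem_KU k).1 hk) ((mem_KU l).1 hl))
    have hirr' : IsIrrK σ' := by
      refine ⟨fun x => ?_, fun k hk l hl x => ?_, fun x f => ?_, ?_, fun N hN => ?_⟩
      · rw [h1 1 hone]
        have e : k' 1 hone = 1 := rfl
        rw [e, map_one, Matrix.one_mulVec]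
      · rw [h1 _ (hmul k hk l hl), h1 k hk, h1 l hl]
        have e : k' (k * l) (hmul k hk l hl) = k' k hk * k' l hl := rfl
        rw [e, map_mul, Matrix.mulVec_mulVec]
      · rw [continuousOn_iff_continuous_domRestrict]
        have e : (UV (1 : Matrix (Fin n) (Fin n) ℂ)).domRestrict (fun k => f (σ' k x)) =
            fun k => f (σ (k' k.1 k.2) *ᵥ x) := by
          funext k
          show f (σ' k.1 x) = _
          rw [h1 k.1 k.2]
        rw [e]
        have hc : Continuous fun k : UV (1 : Matrix (Fin n) (Fin n) ℂ) => σ (k' k.1 k.2) :=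
          hσ.comp (Continuous.subtype_mk continuous_subtype_val _)
        have hf : Continuous f := LinearMap.continuous_of_finiteDimensional f
        exact hf.comp (Continuous.matrix_mulVec hc continuous_const)
      · refine ⟨fun _ => 1, fun h => ?_⟩
        have := congrFun h ⟨0, hirr.1⟩
        simp at this
      · refine hirr.2 N fun k w hw => ?_
        have hk : k.1 ∈ UV (1 : Matrix (Fin n) (Fin n) ℂ) := (mem_KU k.1).2 k.2
        have h2 := hN k.1 hk w hw
        rwa [h1 k.1 hk] at h2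
    obtain ⟨M, hM, h2⟩ := h.admissible (Fin m → ℂ) σ' hirr'
    have hr : ∀ T ∈ AR.HomK σ π, ∀ x, T x ∈ M := by
      intro T hT
      refine h2 T fun k hk x => ?_
      rw [h1 k hk]
      exact hT (k' k hk) x
    let L : AR.HomK σ π →ₗ[ℂ] ((Fin m → ℂ) →ₗ[ℂ] M) :=
      { toFun := fun T => T.1.codRestrict M (hr T.1 T.2)
        map_add' := fun T T' => by
          apply LinearMap.ext
          intro x
          rfl
        map_smul' := fun c T => by
          apply LinearMap.ext
          intro x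
          rfl }
    have hL : Function.Injective L := by
      intro T T' hTT
      apply Subtype.ext
      apply LinearMap.ext
      intro x
      exact congrArg (fun φ : (Fin m → ℂ) →ₗ[ℂ] M => ((φ x : M) : P)) hTT
    exact Module.Finite.of_injective L hL
  nontriv := by
    obtain ⟨x, hx⟩ := h.nonzero
    exact ⟨x, 0, hx⟩
  irr := h.irreducible

/-- completeness from convergence of Cauchy sequences -/
private theorem complete_of {P : Type*} [AddCommGroup P] [UniformSpace P] [IsUniformAddGroup P]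
    [FirstCountableTopology P]
    (h : ∀ u : ℕ → P, Tendsto (fun k : ℕ × ℕ => u k.1 - u k.2) atTop (𝓝 0) →
      ∃ x, Tendsto u atTop (𝓝 x)) : CompleteSpace P := by
  have h0 : (𝓝 (0 : P)).IsCountablyGenerated :=
    FirstCountableTopology.nhds_generated_countable 0
  have : (_root_.uniformity P).IsCountablyGenerated :=
    IsUniformAddGroup.uniformity_countably_generated
  apply UniformSpace.complete_of_cauchySeq_tendsto
  intro u hu
  apply h
  rw [cauchySeq_iff_tendsto, uniformity_eq_comap_nhds_zero_swapped, tendsto_comap_iff] at hu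
  exact hu

/-- **multiplicity one**, archimedean case -/
theorem arch {J : Matrix (Fin n) (Fin n) ℂ} {ε : Fin n → ℝ} {A : GL (Fin n) ℂ}
    (hA : IsDiag J ε A) {a : ℝ} (ha : a ≠ 0) {S : Type*} [AddCommGroup S] [Module ℂ S]
    [TopologicalSpace S] (e : S → (Fin n → ℝ) → ℂ) (he : IsSchwartz e)
    (ω : GL (Fin n) ℂ → (S →L[ℂ] S)) (hω : IsWeilR J ε A a e ω) {P : Type*} [AddCommGroup P]
    [Module ℂ P] [TopologicalSpace P] (hP : IsFrechet P) (π : GL (Fin n) ℂ →* (P →L[ℂ] P))
    (hπ : IsCW π) :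
    ∃ l₀ : P →L[ℂ] S, ∀ l : P →L[ℂ] S, (∀ h ∈ UV J, ∀ x, l (π h x) = ω h (l x)) →
      ∃ c : ℂ, ∀ x, l x = c • l₀ x := by
  obtain ⟨L', hL'⟩ := he
  let L : S ≃L[ℂ] AR.Sch n := L'
  have hL : ∀ s, e s = (L s : (Fin n → ℝ) → ℂ) := hL'
  let W : AR.WeilM J ε A a :=
    { om :=
        { toFun := fun h => (L : S →L[ℂ] AR.Sch n).comp
            ((ω h.1).comp (L.symm : AR.Sch n →L[ℂ] S))
          map_one' := by
            ext1 f
            show L (ω 1 (L.symm f)) = f
            rw [hω.one, ContinuousLinearEquiv.apply_symm_apply]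
          map_mul' := fun g h => by
            ext1 f
            show L (ω (g.1 * h.1) (L.symm f)) = L (ω g.1 (L.symm (L (ω h.1 (L.symm f)))))
            rw [hω.mul g.1 g.2 h.1 h.2, ContinuousLinearEquiv.symm_apply_apply] }
      cont := fun f => by
        have h1 := continuousOn_iff_continuous_domRestrict.1 (hω.continuous (L.symm f))
        exact L.continuous.comp h1
      smooth := fun γ hγ hγ' => by
        obtain ⟨D, hD⟩ := hω.differentiable (fun x => (γ x).1)
          (continuous_subtype_val.comp hγ) (fun x => (γ x).2)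
          (fun x y => by rw [hγ']; rfl)
        refine ⟨(L : S →L[ℂ] AR.Sch n).comp (D.comp (L.symm : AR.Sch n →L[ℂ] S)), fun f => ?_⟩
        have h1 := (L.continuous.tendsto _).comp (hD (L.symm f))
        refine h1.congr fun τ => ?_
        show L ((τ : ℂ)⁻¹ • (ω (γ τ).1 (L.symm f) - L.symm f)) =
          (τ : ℂ)⁻¹ • (L (ω (γ τ).1 (L.symm f)) - f)
        rw [map_smul, map_sub, ContinuousLinearEquiv.apply_symm_apply]
      compat := fun h v f g hg => by
        have h1 := hω.intertwines h.1 h.2 v (L.symm f) (L.symm g)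
        rw [hL, hL, hL, hL, ContinuousLinearEquiv.apply_symm_apply,
          ContinuousLinearEquiv.apply_symm_apply] at h1
        exact h1 hg }
  have := hP.addGroup
  have := hP.smul
  have := hP.hausdorff
  have := hP.firstCountable
  have := hP.locallyConvex
  let U : UniformSpace P := IsTopologicalAddGroup.rightUniformSpace P
  have hU : IsUniformAddGroup P := isUniformAddGroup_of_addCommGroup
  have hc : CompleteSpace P := complete_of hP.complete
  have hr := AR.arch_mult_one (isDiag_iff.1 hA) ha W π (isCW hπ)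
  rw [rank_le_one_iff] at hr
  obtain ⟨l₀, hl₀⟩ := hr
  refine ⟨(L.symm : AR.Sch n →L[ℂ] S).comp l₀.1, fun l hl => ?_⟩
  have hl' : (L : S →L[ℂ] AR.Sch n).comp l ∈ AR.HomM W π := by
    intro h x
    show L (l (π h.1 x)) = L (ω h.1 (L.symm (L (l x))))
    rw [hl h.1 h.2, ContinuousLinearEquiv.symm_apply_apply]
  obtain ⟨c, hc⟩ := hl₀ ⟨_, hl'⟩
  refine ⟨c, fun x => ?_⟩
  have h1 : c • l₀.1 x = L (l x) := congrArg (fun φ : AR.HomM W π => φ.1 x) hc
  show l x = c • L.symm (l₀.1 x)
  rw [← map_smul, h1, ContinuousLinearEquiv.symm_apply_apply]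

end

end Pool.Agent.Work.MP_dd0ddf_al.FN
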