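import Mathlib

/-!
# MP_dd0ddf_al: the definitions used in the final statement

`F` is a local field, `E / F` a separable quadratic extension, its nontrivial automorphism is
written `star`; for `F = ℝ` it is complex conjugation.  `V = E^n` with the form
`⟨v, w⟩ = ∑ v_i J_ij star (w_j)`; every skew-Hermitian space of dimension `n` is of this form, with
`J` a matrix with `Jᴴ = -J` and `det J ≠ 0`.  `GL(V) = GL_n(E)`.
-/

namespace Pool.Agent.Work.MP_dd0ddf_al.FN

open Matrix Filter Topology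

/-! ## the isometry group -/

/-- the form `⟨v, w⟩ = ∑ v_i J_ij star (w_j)` on `E^n` (linear in the first variable) -/
def form {E : Type*} [Field E] [StarRing E] {n : ℕ} (J : Matrix (Fin n) (Fin n) E)
    (v w : Fin n → E) : E := ∑ i, ∑ j, v i * J i j * star (w j)

/-- the isometry group `U(V)`, `V = E^n` with the form `⟨v, w⟩`, as a subset of `GL_n(E)` -/
def UV {E : Type*} [Field E] [StarRing E] {n : ℕ} (J : Matrix (Fin n) (Fin n) E) :
    Set (GL (Fin n) E) := {h | ∀ v w, form J (h.1 *ᵥ v) (h.1 *ᵥ w) = form J v w}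

/-! ## the nonarchimedean case -/

/-- `E / F` is a quadratic extension and `star` is its nontrivial automorphism -/
structure IsQuad (F E : Type*) [Field F] [Field E] [Algebra F E] [StarRing E] : Prop where
  fixes : ∀ x : F, star (algebraMap F E x) = algebraMap F E x
  degree : Module.finrank F E = 2
  nontrivial : ∃ x : E, star x ≠ x

/-- `π` is an irreducible smooth representation of the topological group `G` on `P` -/
structure IsIrrSmooth {G P : Type*} [Group G] [TopologicalSpace G] [AddCommGroup P] [Module ℂ P]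
    (π : G →* Module.End ℂ P) : Prop where
  smooth : ∀ x : P, ∃ U : Set G, IsOpen U ∧ 1 ∈ U ∧ ∀ g ∈ U, π g x = x
  nonzero : ∃ x : P, x ≠ 0
  irreducible : ∀ N : Submodule ℂ P, (∀ g, ∀ x ∈ N, π g x ∈ N) → N = ⊥ ∨ N = ⊤

/-- `ρ` is an irreducible smooth representation on `S` of the Heisenberg group of `V = E^n`, with
central character `ψ`.  The Heisenberg group is `V × F` with
`(v, s) (w, t) = (v + w, s + t + Tr_{E/F}(δ ⟨v, w⟩))`, where `δ ∈ E` satisfies `δ + star δ = 1`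
(take `δ = 1/2` if the characteristic is not 2; up to isomorphism the group does not depend on
`δ`); its commutator pairing is `Tr_{E/F} ⟨v, w⟩`, and `U(V)` acts on it by
`(v, s) ↦ (h v, s)`.  `ρ v` is the action of `(v, 0)`, so that
`ρ(v) ρ(w) = ψ(Tr(δ ⟨v, w⟩)) ρ(v + w)`. -/
structure IsHeis {F E S : Type*} [Field F] [Field E] [Algebra F E] [StarRing E]
    [TopologicalSpace E] [AddCommGroup S] [Module ℂ S] {n : ℕ} (J : Matrix (Fin n) (Fin n) E)
    (δ : E) (ψ : F → ℂ) (ρ : (Fin n → E) → Module.End ℂ S) : Prop where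
  zero : ∀ s : S, ρ 0 s = s
  add : ∀ v w s, ρ v (ρ w s) = ψ (Algebra.trace F E (δ * form J v w)) • ρ (v + w) s
  smooth : ∀ s : S, ∃ U : Set (Fin n → E), IsOpen U ∧ 0 ∈ U ∧ ∀ v ∈ U, ρ v s = s
  nonzero : ∃ s : S, s ≠ 0
  irreducible : ∀ N : Submodule ℂ S, (∀ v, ∀ s ∈ N, ρ v s ∈ N) → N = ⊥ ∨ N = ⊤

/-- `ω` is a Weil representation of `U(V)`: a smooth representation of `U(V)` on the space `S` of
`ρ` with `ω(h) ρ(v) = ρ(h v) ω(h)`.  (Only the values `ω h`, `h ∈ U(V)`, matter.) -/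
structure IsWeil {E S : Type*} [Field E] [StarRing E] [TopologicalSpace E] [AddCommGroup S]
    [Module ℂ S] {n : ℕ} (J : Matrix (Fin n) (Fin n) E) (ρ : (Fin n → E) → Module.End ℂ S)
    (ω : GL (Fin n) E → Module.End ℂ S) : Prop where
  one : ∀ s : S, ω 1 s = s
  mul : ∀ g ∈ UV J, ∀ h ∈ UV J, ∀ s, ω (g * h) s = ω g (ω h s)
  smooth : ∀ s : S, ∃ U : Set (GL (Fin n) E), IsOpen U ∧ 1 ∈ U ∧ ∀ h ∈ U, h ∈ UV J → ω h s = s
  intertwines : ∀ h ∈ UV J, ∀ v s, ω h (ρ v s) = ρ (h.1 *ᵥ v) (ω h s)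

/-! ## the archimedean case: `F = ℝ`, `E = ℂ` -/

/-- `P` is a Frechet space: a Hausdorff, metrizable, locally convex, complete topological vector
space over `ℂ` -/
structure IsFrechet (P : Type*) [AddCommGroup P] [Module ℂ P] [TopologicalSpace P] : Prop where
  addGroup : IsTopologicalAddGroup P
  smul : ContinuousSMul ℂ P
  hausdorff : T2Space P
  firstCountable : FirstCountableTopology P
  locallyConvex : PolynormableSpace ℂ P
  complete : ∀ u : ℕ → P, Tendsto (fun k : ℕ × ℕ => u k.1 - u k.2) atTop (𝓝 0) →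
    ∃ x, Tendsto u atTop (𝓝 x)

/-- the Schwartz space of `ℝ^n` -/
def Sch (n : ℕ) : Type := SchwartzMap (Fin n → ℝ) ℂ

noncomputable instance (n : ℕ) : AddCommGroup (Sch n) := SchwartzMap.instAddCommGroup

noncomputable instance (n : ℕ) : Module ℂ (Sch n) := SchwartzMap.instModule

noncomputable instance (n : ℕ) : TopologicalSpace (Sch n) :=
  SchwartzMap.instTopologicalSpace (Fin n → ℝ) ℂ

/-- `e` identifies the topological vector space `S` with the Schwartz space of `ℝ^n`: `e s` is the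
Schwartz function belonging to `s`, `L` is a linear homeomorphism -/
def IsSchwartz {S : Type*} [AddCommGroup S] [Module ℂ S] [TopologicalSpace S] {n : ℕ}
    (e : S → (Fin n → ℝ) → ℂ) : Prop :=
  ∃ L : S ≃L[ℂ] Sch n, ∀ s, e s = SchwartzMap.toFun (L s)

/-- the matrix `A` is an isometry from `(ℂ^n, form J)` to the standard form
`i ∑ ε_j v_j conj (w_j)`, `ε_j = ±1` -/
structure IsDiag {n : ℕ} (J : Matrix (Fin n) (Fin n) ℂ) (ε : Fin n → ℝ) (A : GL (Fin n) ℂ) :
    Prop where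
  sign : ∀ j, ε j = 1 ∨ ε j = -1
  isometry : ∀ v w, Complex.I * ∑ j, (ε j : ℂ) * (A.1 *ᵥ v) j * star ((A.1 *ᵥ w) j) = form J v w

/-- the Schroedinger representation of the Heisenberg group of `ℂ^n ∋ v = x + i y` with the
standard form `i ∑ ε_j v_j conj (w_j)`, for the character `ψ(x) = exp(i a x)`, on functions on
`ℝ^n`: `(ρ(v) f)(t) = ψ(∑ ε_j y_j (2 t_j + x_j)) f(t + x)`.  (It satisfies
`ρ(v) ρ(w) = ψ(Tr⟨v, w⟩ / 2) ρ(v + w)`.) -/
noncomputable def rho {n : ℕ} (ε : Fin n → ℝ) (a : ℝ) (v : Fin n → ℂ) (f : (Fin n → ℝ) → ℂ)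
    (t : Fin n → ℝ) : ℂ :=
  Complex.exp (Complex.I * a * ∑ j, (ε j : ℂ) * (v j).im * (2 * t j + (v j).re)) *
    f (fun j => t j + (v j).re)

/-- `ω` is a Weil representation of `U(V)`, `V = (ℂ^n, form J)`, on the Schwartz space `S` of
`ℝ^n`: a continuous representation, with differentiable orbit maps (along one parameter subgroups,
the derivatives being continuous operators), with `ω(h) ρ(v) = ρ(h v) ω(h)`, where
`ρ(v) = rho ε a (A v)` is the Schroedinger representation of the Heisenberg group of `V`.  (Only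
the values `ω h`, `h ∈ U(V)`, matter.) -/
structure IsWeilR {S : Type*} [AddCommGroup S] [Module ℂ S] [TopologicalSpace S] {n : ℕ}
    (J : Matrix (Fin n) (Fin n) ℂ) (ε : Fin n → ℝ) (A : GL (Fin n) ℂ) (a : ℝ)
    (e : S → (Fin n → ℝ) → ℂ) (ω : GL (Fin n) ℂ → (S →L[ℂ] S)) : Prop where
  one : ∀ s : S, ω 1 s = s
  mul : ∀ g ∈ UV J, ∀ h ∈ UV J, ∀ s, ω (g * h) s = ω g (ω h s)
  continuous : ∀ s, ContinuousOn (fun h => ω h s) (UV J)
  differentiable : ∀ γ : ℝ → GL (Fin n) ℂ, Continuous γ → (∀ x, γ x ∈ UV J) →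
    (∀ x y, γ (x + y) = γ x * γ y) → ∃ D : S →L[ℂ] S, ∀ s,
      Tendsto (fun τ : ℝ => (τ : ℂ)⁻¹ • (ω (γ τ) s - s)) (𝓝[≠] 0) (𝓝 (D s))
  intertwines : ∀ h ∈ UV J, ∀ v s s', e s' = rho ε a (A.1 *ᵥ v) (e s) →
    e (ω h s') = rho ε a (A.1 *ᵥ (h.1 *ᵥ v)) (e (ω h s))

/-- `σ` is an irreducible continuous representation of `U(n)` on the (finite dimensional) space
`W`.  (`U(n)` is the isometry group of the form `∑ v_j conj (w_j)`, a maximal compact subgroup of
`GL_n(ℂ)`; only the values `σ k`, `k ∈ U(n)`, matter.) -/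
structure IsIrrK {n : ℕ} {W : Type*} [AddCommGroup W] [Module ℂ W]
    (σ : GL (Fin n) ℂ → Module.End ℂ W) : Prop where
  one : ∀ x, σ 1 x = x
  mul : ∀ k ∈ UV 1, ∀ l ∈ UV 1, ∀ x, σ (k * l) x = σ k (σ l x)
  continuous : ∀ (x : W) (f : W →ₗ[ℂ] ℂ), ContinuousOn (fun k => f (σ k x)) (UV 1)
  nonzero : ∃ x : W, x ≠ 0
  irreducible : ∀ N : Submodule ℂ W, (∀ k ∈ UV 1, ∀ x ∈ N, σ k x ∈ N) → N = ⊥ ∨ N = ⊤

/-- `(π, P)` is an irreducible Casselman-Wallach representation of `GL_n(ℂ)` on the Frechet space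
`P`:
* the action is continuous;
* every vector is smooth (we only ask that the orbit maps have directional derivatives at `1`,
  given by an `ℝ`-linear map `D`; for a continuous representation on a Frechet space this is
  equivalent, if it holds for all vectors, to all orbit maps being `C^∞`);
* moderate growth: for every continuous seminorm `p` there are a continuous seminorm `q` and `N`
  with `p(π(g) x) ≤ (∑ |g_ij| + |(g⁻¹)_ij|)^N q(x)`;
* admissible: for every irreducible representation `σ` of `U(n)` the `σ`-isotypic subspace of `P`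
  (the span of the images of all equivariant maps `T : W → P`) is finite dimensional;
* topologically irreducible and nonzero. -/
structure IsCW {n : ℕ} {P : Type*} [AddCommGroup P] [Module ℂ P] [TopologicalSpace P]
    (π : GL (Fin n) ℂ →* (P →L[ℂ] P)) : Prop where
  continuous : Continuous fun z : GL (Fin n) ℂ × P => π z.1 z.2
  smooth : ∀ x : P, ∃ D : Matrix (Fin n) (Fin n) ℂ →ₗ[ℝ] P, ∀ Y, ∀ γ : ℝ → GL (Fin n) ℂ,
    (∀ τ, (γ τ).1 = NormedSpace.exp (τ • Y)) →
      Tendsto (fun τ : ℝ => (τ : ℂ)⁻¹ • (π (γ τ) x - x)) (𝓝[≠] 0) (𝓝 (D Y))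
  growth : ∀ p : Seminorm ℂ P, Continuous p → ∃ (N : ℕ) (q : Seminorm ℂ P), Continuous q ∧
    ∀ (g : GL (Fin n) ℂ) (x : P), p (π g x) ≤ (∑ i, ∑ j, (‖g.1 i j‖ + ‖g⁻¹.1 i j‖)) ^ N * q x
  admissible : ∀ (W : Type) [AddCommGroup W] [Module ℂ W] [Module.Finite ℂ W]
    (σ : GL (Fin n) ℂ → Module.End ℂ W), IsIrrK σ → ∃ M : Submodule ℂ P, Module.Finite ℂ M ∧
      ∀ T : W →ₗ[ℂ] P, (∀ k ∈ UV 1, ∀ x, T (σ k x) = π k (T x)) → ∀ x, T x ∈ M
  nonzero : ∃ x : P, x ≠ 0
  irreducible : ∀ N : Submodule ℂ P, IsClosed (N : Set P) → (∀ g, ∀ x ∈ N, π g x ∈ N) →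
    N = ⊥ ∨ N = ⊤

end Pool.Agent.Work.MP_dd0ddf_al.FN
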